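import Pool.Agent.Lib.Tate.W.Spec

/-!
# C42, block W: circulant coefficients
-/

open Topology unitInterval Filter Set
open scoped Topology.Homotopy ZeroAtInfty OnePoint

noncomputable section

namespace Pool.Agent.Tate.Wi

namespace Cc

theorem cos23 : Real.cos (2 * Real.pi / 3) = -(1 / 2) := by
  have h : 2 * Real.pi / 3 = Real.pi - Real.pi / 3 := by ring
  rw [h, Real.cos_pi_sub, Real.cos_pi_div_three]

theorem sin23 : Real.sin (2 * Real.pi / 3) = √3 / 2 := by
  have h : 2 * Real.pi / 3 = Real.pi - Real.pi / 3 := by ring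
  rw [h, Real.sin_pi_sub, Real.sin_pi_div_three]

theorem cos43 : Real.cos (4 * Real.pi / 3) = -(1 / 2) := by
  have h : 4 * Real.pi / 3 = Real.pi / 3 + Real.pi := by ring
  rw [h, Real.cos_add_pi, Real.cos_pi_div_three]

theorem sin43 : Real.sin (4 * Real.pi / 3) = -(√3 / 2) := by
  have h : 4 * Real.pi / 3 = Real.pi / 3 + Real.pi := by ring
  rw [h, Real.sin_add_pi, Real.sin_pi_div_three]

theorem cc0 (t : ℝ) : cc t 0 = (1 + 2 * Real.cos (2 * Real.pi * t / 3)) / 3 := by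
  unfold cc
  simp

theorem cc1 (t : ℝ) : cc t 1
    = (1 - Real.cos (2 * Real.pi * t / 3) + √3 * Real.sin (2 * Real.pi * t / 3)) / 3 := by
  have h0 : (1 : ZMod 3).val = 1 := rfl
  have h : 2 * Real.pi * (t - ((1 : ZMod 3).val : ℝ)) / 3 = 2 * Real.pi * t / 3 - 2 * Real.pi / 3 := by
    rw [h0]
    push_cast
    ring
  unfold cc
  rw [h, Real.cos_sub, cos23, sin23]
  ring

theorem cc2 (t : ℝ) : cc t 2
    = (1 - Real.cos (2 * Real.pi * t / 3) - √3 * Real.sin (2 * Real.pi * t / 3)) / 3 := by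
  have h0 : (2 : ZMod 3).val = 2 := rfl
  have h : 2 * Real.pi * (t - ((2 : ZMod 3).val : ℝ)) / 3 = 2 * Real.pi * t / 3 - 4 * Real.pi / 3 := by
    rw [h0]
    push_cast
    ring
  unfold cc
  rw [h, Real.cos_sub, cos43, sin43]
  ring

theorem all3 {p : ZMod 3 → Prop} (h0 : p 0) (h1 : p 1) (h2 : p 2) : ∀ l, p l := by
  intro l
  fin_cases l
  · exact h0
  · exact h1
  · exact h2

theorem sum3 (g : ZMod 3 → ℝ) : ∑ l : ZMod 3, g l = g 0 + g 1 + g 2 := Fin.sum_univ_three g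

end Cc

open Cc in
theorem pCc : S_Cc := by
  have h3 : √3 * √3 = (3 : ℝ) := Real.mul_self_sqrt (by norm_num)
  refine ⟨fun s t => ?_, ?_, ?_, fun t => ?_, fun l => ?_⟩
  · have e : 2 * Real.pi * (s + t) / 3 = 2 * Real.pi * s / 3 + 2 * Real.pi * t / 3 := by ring
    refine all3 ?_ ?_ ?_
    · have a1 : (0 - 0 : ZMod 3) = 0 := rfl
      have a2 : (0 - 1 : ZMod 3) = 2 := rfl
      have a3 : (0 - 2 : ZMod 3) = 1 := rfl
      rw [sum3, a1, a2, a3, cc0, cc0, cc0, cc1, cc1, cc2, cc2, e, Real.cos_add]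
      linear_combination (-(2 * Real.sin (2 * Real.pi * s / 3) * Real.sin (2 * Real.pi * t / 3)) / 9) * h3
    · have a1 : (1 - 0 : ZMod 3) = 1 := rfl
      have a2 : (1 - 1 : ZMod 3) = 0 := rfl
      have a3 : (1 - 2 : ZMod 3) = 2 := rfl
      rw [sum3, a1, a2, a3, cc0, cc0, cc1, cc1, cc1, cc2, cc2, e, Real.cos_add, Real.sin_add]
      linear_combination ((Real.sin (2 * Real.pi * s / 3) * Real.sin (2 * Real.pi * t / 3)) / 9) * h3
    · have a1 : (2 - 0 : ZMod 3) = 2 := rfl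
      have a2 : (2 - 1 : ZMod 3) = 1 := rfl
      have a3 : (2 - 2 : ZMod 3) = 0 := rfl
      rw [sum3, a1, a2, a3, cc0, cc0, cc1, cc1, cc2, cc2, cc2, e, Real.cos_add, Real.sin_add]
      linear_combination ((Real.sin (2 * Real.pi * s / 3) * Real.sin (2 * Real.pi * t / 3)) / 9) * h3
  · have n1 : (1 : ZMod 3) ≠ 0 := by decide
    have n2 : (2 : ZMod 3) ≠ 0 := by decide
    refine all3 ?_ ?_ ?_
    · rw [cc0, if_pos rfl]
      simp
      norm_num
    · rw [cc1, if_neg n1]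
      simp
    · rw [cc2, if_neg n2]
      simp
  · have n1 : (0 : ZMod 3) ≠ 1 := by decide
    have n2 : (2 : ZMod 3) ≠ 1 := by decide
    refine all3 ?_ ?_ ?_
    · rw [cc0, if_neg n1, mul_one, cos23]
      norm_num
    · rw [cc1, if_pos rfl, mul_one, cos23, sin23]
      linear_combination (1 / 6) * h3
    · rw [cc2, if_neg n2, mul_one, cos23, sin23]
      linear_combination (-(1 / 6)) * h3
  · have e : 2 * Real.pi * (-t) / 3 = -(2 * Real.pi * t / 3) := by ring
    refine all3 ?_ ?_ ?_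
    · have a1 : (-0 : ZMod 3) = 0 := rfl
      rw [a1, cc0, cc0, e, Real.cos_neg]
    · have a1 : (-1 : ZMod 3) = 2 := rfl
      rw [a1, cc1, cc2, e, Real.cos_neg, Real.sin_neg]
      ring
    · have a1 : (-2 : ZMod 3) = 1 := rfl
      rw [a1, cc1, cc2, e, Real.cos_neg, Real.sin_neg]
      ring
  · unfold cc
    fun_prop

end Pool.Agent.Tate.Wi
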