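import Pool.Agent.Lib.Tate.W.WP

/-!
# C42, W/P3 (helper46): three-cycles act homotopically trivially
-/

set_option autoImplicit false

open Topology unitInterval Filter Set
open scoped Topology.Homotopy ZeroAtInfty OnePoint

noncomputable section

namespace Pool.Agent.Tate.Wi

namespace P3Aux

/-! ### The circulant families -/

section alg

variable {R : Type} [Ring R] [Algebra ℝ R]

/-- the family -/
def EE (T : ZMod 3 → R) (t : ℝ) : R := ∑ l, cc t l • T l

theorem EE_mul (h : S_Cc) (T : ZMod 3 → R) (hT : ∀ l m, T l * T m = T (l + m)) (s t : ℝ) :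
    EE T s * EE T t = EE T (s + t) := by
  unfold EE
  rw [Finset.sum_mul_sum]
  have h1 : ∀ l : ZMod 3, ∑ m, (cc s l • T l) * (cc t m • T m) =
      ∑ k, (cc s l * cc t (k - l)) • T k := by
    intro l
    refine Fintype.sum_equiv (Equiv.addLeft l) _ _ fun m => ?_
    rw [smul_mul_smul_comm, hT]
    show _ = (cc s l * cc t (l + m - l)) • T (l + m)
    rw [add_sub_cancel_left]
  rw [Finset.sum_congr rfl fun l _ => h1 l, Finset.sum_comm]
  refine Finset.sum_congr rfl fun k _ => ?_
  rw [← Finset.sum_smul, h.1]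

theorem EE_zero (h : S_Cc) (T : ZMod 3 → R) : EE T 0 = T 0 := by
  unfold EE
  rw [Finset.sum_eq_single 0]
  · rw [h.2.1, if_pos rfl, one_smul]
  · intro l _ hl
    rw [h.2.1, if_neg hl, zero_smul]
  · intro h1
    exact absurd (Finset.mem_univ _) h1

theorem EE_one (h : S_Cc) (T : ZMod 3 → R) : EE T 1 = T 1 := by
  unfold EE
  rw [Finset.sum_eq_single 1]
  · rw [h.2.2.1, if_pos rfl, one_smul]
  · intro l _ hl
    rw [h.2.2.1, if_neg hl, zero_smul]
  · intro h1
    exact absurd (Finset.mem_univ _) h1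

end alg

variable {A : Type} [Fintype A] [DecidableEq A]

theorem pw (g : Equiv.Perm A) (hg : g ^ 3 = 1) (l m : ZMod 3) :
    g ^ (l + m).val = g ^ l.val * g ^ m.val := by
  rw [ZMod.val_add, ← pow_add]
  exact (pow_eq_pow_mod _ hg).symm

/-! ### The maps of the space -/

/-- the permutations of the coordinates -/
def gP (g : Equiv.Perm A) (l : ZMod 3) : Module.End ℝ (A → VV) :=
  LinearMap.funLeft ℝ VV (⇑(g⁻¹ ^ l.val))

theorem gP_apply (g : Equiv.Perm A) (l : ZMod 3) (y : A → VV) (a : A) :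
    gP g l y a = y ((g⁻¹ ^ l.val) a) := rfl

theorem gP_mul (g : Equiv.Perm A) (hg : g ^ 3 = 1) (l m : ZMod 3) :
    gP g l * gP g m = gP g (l + m) := by
  have hg' : g⁻¹ ^ 3 = 1 := by rw [inv_pow, hg, inv_one]
  refine LinearMap.ext fun y => ?_
  funext a
  show y ((g⁻¹ ^ m.val) ((g⁻¹ ^ l.val) a)) = y ((g⁻¹ ^ (l + m).val) a)
  rw [add_comm l m, pw g⁻¹ hg' m l]
  rfl

theorem gP_zero (g : Equiv.Perm A) : gP g 0 = 1 := by
  refine LinearMap.ext fun y => ?_
  funext a
  show y ((g⁻¹ ^ (0 : ZMod 3).val) a) = y a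
  rw [ZMod.val_zero, pow_zero]
  rfl

/-- the family of linear maps -/
def Gt (g : Equiv.Perm A) (t : ℝ) (y : A → VV) : A → VV := EE (gP g) t y

theorem Gt_apply (g : Equiv.Perm A) (t : ℝ) (y : A → VV) (a : A) :
    Gt g t y a = ∑ l, cc t l • y ((g⁻¹ ^ l.val) a) := by
  unfold Gt EE
  rw [LinearMap.sum_apply, Finset.sum_apply]
  rfl

theorem Gt_Gt (h : S_Cc) (g : Equiv.Perm A) (hg : g ^ 3 = 1) (s t : ℝ) (y : A → VV) :
    Gt g s (Gt g t y) = Gt g (s + t) y := by
  unfold Gt
  rw [← EE_mul h (gP g) (gP_mul g hg) s t]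
  rfl

theorem Gt_zero (h : S_Cc) (g : Equiv.Perm A) (y : A → VV) : Gt g 0 y = y := by
  unfold Gt
  rw [EE_zero h, gP_zero]
  rfl

theorem Gt_neg (h : S_Cc) (g : Equiv.Perm A) (hg : g ^ 3 = 1) (t : ℝ) (y : A → VV) :
    Gt g (-t) (Gt g t y) = y := by
  rw [Gt_Gt h g hg, neg_add_cancel, Gt_zero h]

theorem Gt_inj (h : S_Cc) (g : Equiv.Perm A) (hg : g ^ 3 = 1) (t : ℝ) :
    Function.Injective (Gt g t) := by
  intro y y' hy
  rw [← Gt_neg h g hg t y, hy, Gt_neg h g hg]

theorem Gt_one (h : S_Cc) (g : Equiv.Perm A) (y : A → VV) : Gt g 1 (y ∘ g) = y := by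
  unfold Gt
  rw [EE_one h]
  funext a
  show y (g ((g⁻¹ ^ (1 : ZMod 3).val) a)) = y a
  have h1 : (1 : ZMod 3).val = 1 := rfl
  rw [h1, pow_one]
  show y ((g * g⁻¹) a) = y a
  rw [mul_inv_cancel]
  rfl

/-- one coordinate of rot -/
def rotL : VV →ₗ[ℝ] VV where
  toFun v := (v.1, Complex.I * v.2)
  map_add' v w := by
    refine Prod.ext rfl ?_
    show Complex.I * (v.2 + w.2) = Complex.I * v.2 + Complex.I * w.2
    rw [mul_add]
  map_smul' r v := by
    refine Prod.ext rfl ?_
    show Complex.I * (r • v.2) = r • (Complex.I * v.2)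
    rw [mul_smul_comm]

theorem Gt_rot (g : Equiv.Perm A) (t : ℝ) (y : A → VV) : Gt g t (rot y) = rot (Gt g t y) := by
  funext a
  rw [Gt_apply]
  show ∑ l, cc t l • rotL (y ((g⁻¹ ^ l.val) a)) = rotL (Gt g t y a)
  rw [Gt_apply, map_sum]
  refine Finset.sum_congr rfl fun l _ => ?_
  rw [map_smul]

theorem Gt_cont (h : S_Cc) (g : Equiv.Perm A) :
    Continuous fun q : ℝ × (A → VV) => Gt g q.1 q.2 := by
  refine continuous_pi fun a => ?_
  simp only [Gt_apply]
  refine continuous_finsetSum _ fun l _ => ?_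
  exact ((h.2.2.2.2 l).comp continuous_fst).smul ((continuous_apply _).comp continuous_snd)

theorem cc_le (t : ℝ) (l : ZMod 3) : |cc t l| ≤ 1 := by
  unfold cc
  have h1 := Real.neg_one_le_cos (2 * Real.pi * (t - l.val) / 3)
  have h2 := Real.cos_le_one (2 * Real.pi * (t - l.val) / 3)
  rw [abs_le]
  constructor <;> linarith

theorem Gt_norm (g : Equiv.Perm A) (t : ℝ) (y : A → VV) : ‖Gt g t y‖ ≤ 3 * ‖y‖ := by
  rw [pi_norm_le_iff_of_nonneg (by positivity)]
  intro a
  rw [Gt_apply]
  refine (norm_sum_le _ _).trans ?_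
  have h1 : ∀ l ∈ (Finset.univ : Finset (ZMod 3)), ‖cc t l • y ((g⁻¹ ^ l.val) a)‖ ≤ ‖y‖ := by
    intro l _
    rw [norm_smul, Real.norm_eq_abs]
    have h2 := norm_le_pi_norm y ((g⁻¹ ^ l.val) a)
    have h3 := mul_le_mul (cc_le t l) h2 (norm_nonneg _) zero_le_one
    rw [one_mul] at h3
    exact h3
  refine (Finset.sum_le_card_nsmul _ _ _ h1).trans ?_
  rw [Finset.card_univ, ZMod.card, nsmul_eq_mul]
  norm_num

theorem Gt_norm' (h : S_Cc) (g : Equiv.Perm A) (hg : g ^ 3 = 1) (t : ℝ) (y : A → VV) :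
    ‖y‖ / 3 ≤ ‖Gt g t y‖ := by
  have h1 := Gt_norm g (-t) (Gt g t y)
  rw [Gt_neg h g hg] at h1
  linarith

attribute [irreducible] Gt

/-! ### The unitary matrices -/

/-- the permutation matrices -/
def uP (g : Equiv.Perm A) (l : ZMod 3) : Mt A (ZMod 4) :=
  Matrix.of fun a b => if b = a ∘ ⇑(g ^ l.val) then 1 else 0

theorem uP_apply (g : Equiv.Perm A) (l : ZMod 3) (a b : A → ZMod 4) :
    uP g l a b = if b = a ∘ ⇑(g ^ l.val) then 1 else 0 := rfl

theorem uP_mul' (g : Equiv.Perm A) (l : ZMod 3) (M : Mt A (ZMod 4)) (a b : A → ZMod 4) :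
    (uP g l * M) a b = M (a ∘ ⇑(g ^ l.val)) b := by
  rw [Matrix.mul_apply, Finset.sum_eq_single (a ∘ ⇑(g ^ l.val))]
  · rw [uP_apply, if_pos rfl, one_mul]
  · intro c _ hc
    rw [uP_apply, if_neg hc, zero_mul]
  · intro h1
    exact absurd (Finset.mem_univ _) h1

theorem mul_uP' (g : Equiv.Perm A) (l : ZMod 3) (M : Mt A (ZMod 4)) (a b : A → ZMod 4) :
    (M * (uP g l).conjTranspose) a b = M a (b ∘ ⇑(g ^ l.val)) := by
  rw [Matrix.mul_apply, Finset.sum_eq_single (b ∘ ⇑(g ^ l.val))]
  · rw [Matrix.conjTranspose_apply, uP_apply, if_pos rfl, star_one, mul_one]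
  · intro c _ hc
    rw [Matrix.conjTranspose_apply, uP_apply, if_neg hc, star_zero, mul_zero]
  · intro h1
    exact absurd (Finset.mem_univ _) h1

theorem uP_mul (g : Equiv.Perm A) (hg : g ^ 3 = 1) (l m : ZMod 3) :
    uP g l * uP g m = uP g (l + m) := by
  ext a b
  rw [uP_mul', uP_apply, uP_apply, pw g hg l m]
  rfl

theorem uP_zero (g : Equiv.Perm A) : uP g 0 = 1 := by
  ext a b
  rw [uP_apply, ZMod.val_zero, pow_zero, Matrix.one_apply]
  have h : (b = a ∘ ⇑(1 : Equiv.Perm A)) ↔ a = b := ⟨fun h => h.symm, fun h => h.symm⟩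
  simp only [h]

theorem uP_star (g : Equiv.Perm A) (hg : g ^ 3 = 1) (l : ZMod 3) :
    (uP g l).conjTranspose = uP g (-l) := by
  have h1 : g ^ l.val * g ^ (-l).val = 1 := by
    rw [← pw g hg, add_neg_cancel, ZMod.val_zero, pow_zero]
  have h2 : g ^ (-l).val * g ^ l.val = 1 := by
    rw [← pw g hg, neg_add_cancel, ZMod.val_zero, pow_zero]
  ext a b
  rw [Matrix.conjTranspose_apply, uP_apply, uP_apply]
  by_cases h3 : a = b ∘ ⇑(g ^ l.val)
  · have h4 : b = a ∘ ⇑(g ^ (-l).val) := by
      rw [h3]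
      show b = b ∘ ⇑(g ^ l.val * g ^ (-l).val)
      rw [h1]
      rfl
    rw [if_pos h3, if_pos h4, star_one]
  · have h4 : ¬ b = a ∘ ⇑(g ^ (-l).val) := by
      intro h5
      apply h3
      rw [h5]
      show a = a ∘ ⇑(g ^ (-l).val * g ^ l.val)
      rw [h2]
      rfl
    rw [if_neg h3, if_neg h4, star_zero]

/-- the unitary matrices -/
def Ut (g : Equiv.Perm A) (t : ℝ) : Mt A (ZMod 4) := EE (uP g) t

theorem Ut_apply (g : Equiv.Perm A) (t : ℝ) (a b : A → ZMod 4) :
    Ut g t a b = ∑ l, cc t l • uP g l a b := by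
  unfold Ut EE
  rw [Matrix.sum_apply]
  rfl

theorem Ut_star (h : S_Cc) (g : Equiv.Perm A) (hg : g ^ 3 = 1) (t : ℝ) :
    (Ut g t).conjTranspose = Ut g (-t) := by
  unfold Ut EE
  rw [Matrix.conjTranspose_sum]
  refine Fintype.sum_equiv (Equiv.neg (ZMod 3)) _ _ fun l => ?_
  rw [Matrix.conjTranspose_smul, star_trivial, uP_star g hg]
  show cc t l • uP g (-l) = cc (-t) (-l) • uP g (-l)
  rw [h.2.2.2.1, neg_neg]

theorem Ut_unit (h : S_Cc) (g : Equiv.Perm A) (hg : g ^ 3 = 1) (t : ℝ) :
    (Ut g t).conjTranspose * Ut g t = 1 := by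
  rw [Ut_star h g hg]
  unfold Ut
  rw [EE_mul h (uP g) (uP_mul g hg), neg_add_cancel, EE_zero h, uP_zero]

theorem Ut_zero (h : S_Cc) (g : Equiv.Perm A) : Ut g 0 = 1 := by
  unfold Ut
  rw [EE_zero h, uP_zero]

theorem Ut_one (h : S_Cc) (g : Equiv.Perm A) : Ut g 1 = uP g 1 := by
  unfold Ut
  rw [EE_one h]

theorem Ut_chi (g : Equiv.Perm A) (t : ℝ) (a b : A → ZMod 4) :
    Ut g t a b * chi b = chi a * Ut g t a b := by
  rw [Ut_apply, Finset.sum_mul, Finset.mul_sum]
  refine Finset.sum_congr rfl fun l _ => ?_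
  rw [uP_apply]
  split_ifs with h1
  · rw [h1, chi_comp, mul_comm]
  · rw [smul_zero, zero_mul, mul_zero]

theorem Ut_cont (h : S_Cc) (g : Equiv.Perm A) : Continuous fun t => Ut g t := by
  unfold Ut EE
  refine continuous_finsetSum _ fun l _ => ?_
  exact (h.2.2.2.2 l).smul continuous_const

attribute [irreducible] Ut

/-! ### Conjugation of the labels -/

/-- conjugation of the labels -/
def cj {Y J : Type} [Fintype J] [DecidableEq J] (U : Matrix J J ℂ)
    (hU : U.conjTranspose * U = 1) (c : Conf Y J) : Conf Y J where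
  P y := U * c.P y * U.conjTranspose
  fin := by
    refine c.fin.subset fun y hy => ?_
    intro h
    exact hy (by rw [h, mul_zero, zero_mul])
  herm y := by
    show (U * c.P y * U.conjTranspose).conjTranspose = U * c.P y * U.conjTranspose
    rw [Matrix.conjTranspose_mul, Matrix.conjTranspose_mul, Matrix.conjTranspose_conjTranspose,
      (c.herm y).eq, mul_assoc]
  idem y := by
    have h1 : U * c.P y * U.conjTranspose * (U * c.P y * U.conjTranspose) =
        U * c.P y * (U.conjTranspose * U) * c.P y * U.conjTranspose := by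
      simp only [mul_assoc]
    rw [h1, hU, mul_one, mul_assoc U (c.P y) (c.P y), c.idem]
  orth y y' h := by
    have h1 : U * c.P y * U.conjTranspose * (U * c.P y' * U.conjTranspose) =
        U * c.P y * (U.conjTranspose * U) * c.P y' * U.conjTranspose := by
      simp only [mul_assoc]
    rw [h1, hU, mul_one, mul_assoc U (c.P y) (c.P y'), c.orth y y' h, mul_zero, zero_mul]

theorem ev_cj {Y J : Type} [Fintype J] [DecidableEq J] (U : Matrix J J ℂ)
    (hU : U.conjTranspose * U = 1) (c : Conf Y J) (f : Y → ℝ) :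
    (cj U hU c).ev f = U * c.ev f * U.conjTranspose := by
  have h1 : (cj U hU c).ev f = ∑ y ∈ c.fin.toFinset, (f y : ℂ) • (cj U hU c).P y := by
    unfold Conf.ev
    apply finsum_eq_sum_of_support_subset
    intro y hy
    rw [Finite.coe_toFinset]
    intro h
    apply hy
    show (f y : ℂ) • (U * c.P y * U.conjTranspose) = 0
    rw [h, mul_zero, zero_mul, smul_zero]
  rw [h1, Conf.ev_eq_sum, Finset.mul_sum, Finset.sum_mul]
  refine Finset.sum_congr rfl fun y _ => ?_
  show (f y : ℂ) • (U * c.P y * U.conjTranspose) = U * ((f y : ℂ) • c.P y) * U.conjTranspose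
  rw [mul_smul_comm, smul_mul_assoc]

theorem inv_iff (c : CW A) : CW.Inv c ↔ ∀ y, c.P (rot y) =
    Matrix.diagonal chi * c.P y * (Matrix.diagonal chi).conjTranspose := by
  unfold CW.Inv
  constructor
  · intro h y
    ext a b
    rw [h y a b, Matrix.diagonal_conjTranspose, Matrix.mul_diagonal, Matrix.diagonal_mul]
    show _ = chi a * c.P y a b * (starRingEnd ℂ) (chi b)
    ring
  · intro h y a b
    rw [h y, Matrix.diagonal_conjTranspose, Matrix.mul_diagonal, Matrix.diagonal_mul]
    show chi a * c.P y a b * (starRingEnd ℂ) (chi b) = _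
    ring

theorem cj_inv (U : Mt A (ZMod 4)) (hU : U.conjTranspose * U = 1)
    (hUc : ∀ a b, U a b * chi b = chi a * U a b) (c : CW A) (hc : CW.Inv c) :
    CW.Inv (cj U hU c) := by
  rw [inv_iff] at hc ⊢
  intro y
  have h1 : U * Matrix.diagonal chi = Matrix.diagonal chi * U := by
    ext a b
    rw [Matrix.mul_diagonal, Matrix.diagonal_mul]
    exact hUc a b
  have h2 : (Matrix.diagonal chi).conjTranspose * U.conjTranspose =
      U.conjTranspose * (Matrix.diagonal chi).conjTranspose := by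
    rw [← Matrix.conjTranspose_mul, h1, Matrix.conjTranspose_mul]
  show U * c.P (rot y) * U.conjTranspose = Matrix.diagonal chi * (U * c.P y * U.conjTranspose) *
    (Matrix.diagonal chi).conjTranspose
  rw [hc y]
  calc U * (Matrix.diagonal chi * c.P y * (Matrix.diagonal chi).conjTranspose) * U.conjTranspose
      = (U * Matrix.diagonal chi) * c.P y *
        ((Matrix.diagonal chi).conjTranspose * U.conjTranspose) := by
        simp only [mul_assoc]
    _ = _ := by
        rw [h1, h2]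
        simp only [mul_assoc]

/-- the label of the image under an injective map -/
theorem push_inj {Y Y' J : Type} [Fintype J] (s : Y → Y') (hs : Function.Injective s)
    (c : Conf Y J) (y : Y) : (c.push (fun y => (s y : OnePoint Y'))).P (s y) = c.P y := by
  classical
  rw [Conf.push_P, Conf.pushP]
  by_cases hy : c.P y = 0
  · rw [hy]
    refine Finset.sum_eq_zero fun z hz => ?_
    rw [Finset.mem_filter] at hz
    have : z = y := hs (OnePoint.coe_injective hz.2)
    rw [this, hy]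
  · rw [Finset.sum_eq_single y]
    · intro z hz hzy
      rw [Finset.mem_filter] at hz
      exact absurd (hs (OnePoint.coe_injective hz.2)) hzy
    · intro hn
      refine absurd ?_ hn
      rw [Finset.mem_filter, Finite.mem_toFinset]
      exact ⟨hy, rfl⟩

theorem Gt_rot' (g : Equiv.Perm A) (t : ℝ) (y y' : A → VV) :
    (Gt g t (rot y) : OnePoint (A → VV)) = ((rot y' : A → VV) : OnePoint (A → VV)) ↔
      (Gt g t y : OnePoint (A → VV)) = (y' : OnePoint (A → VV)) := by
  rw [OnePoint.coe_eq_coe, OnePoint.coe_eq_coe, Gt_rot]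
  exact ⟨fun h => rot_injective h, fun h => by rw [h]⟩

/-- the homotopy -/
def HH (h : S_Cc) (g : Equiv.Perm A) (hg : g ^ 3 = 1) (p : I × WX A) : WX A :=
  ⟨cj (Ut g p.1) (Ut_unit h g hg p.1)
      (p.2.1.push fun y => (Gt g p.1 y : OnePoint (A → VV))),
    cj_inv _ _ (Ut_chi g p.1) _ (WPAux.push_inv p.2.1 p.2.2 _ (Gt_rot' g p.1))⟩

theorem push_cont (h : S_Cc) (hPc : Cnn.S_Pc) (g : Equiv.Perm A) (hg : g ^ 3 = 1) :
    Continuous fun p : I × WX A =>
      (p.2.1.push fun y => (Gt g p.1 y : OnePoint (A → VV)) : Conf (A → VV) (A → ZMod 4)) := by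
  rw [continuous_iff_continuousAt]
  intro x₀
  rw [← continuousWithinAt_univ]
  refine hPc (I × WX A) (A → VV) (A → VV) (A → ZMod 4) univ x₀ (fun p => p.2.1)
    (fun p y => (Gt g p.1 y : OnePoint (A → VV))) ?_ ?_ ?_
  · exact ((continuous_subtype_val : Continuous fun c : WX A => (c.1 : CW A)).comp
      continuous_snd).continuousWithinAt
  · intro y _
    have h2 : Continuous fun q : (I × WX A) × (A → VV) => ((q.1.1 : ℝ), q.2) :=
      (continuous_subtype_val.comp (continuous_fst.comp continuous_fst)).prodMk continuous_snd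
    have h3 : Tendsto (fun q : (I × WX A) × (A → VV) => Gt g q.1.1 q.2) (𝓝 (x₀, y))
        (𝓝 (Gt g x₀.1 y)) := ((Gt_cont h g).comp h2).tendsto (x₀, y)
    rw [nhdsWithin_univ, ← nhds_prod_eq]
    exact (OnePoint.continuous_coe.tendsto (Gt g x₀.1 y)).comp h3
  · have h1 : Tendsto (fun q : (I × WX A) × (A → VV) => Gt g q.1.1 q.2)
        (𝓝[univ] x₀ ×ˢ cocompact (A → VV)) (coclosedCompact (A → VV)) := by
      rw [Filter.coclosedCompact_eq_cocompact, ← Metric.cobounded_eq_cocompact,
        ← tendsto_norm_atTop_iff_cobounded]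
      have h2 : Tendsto (fun q : (I × WX A) × (A → VV) => ‖q.2‖ / 3)
          (𝓝[univ] x₀ ×ˢ Bornology.cobounded (A → VV)) atTop := by
        refine Tendsto.atTop_div_const (by norm_num) ?_
        exact tendsto_norm_cobounded_atTop.comp tendsto_snd
      exact tendsto_atTop_mono (fun q => Gt_norm' h g hg _ _) h2
    exact OnePoint.tendsto_coe_infty.comp h1

end P3Aux

open P3Aux

/-- **P3.** -/
theorem pP3 (h1 : S_Cc) (h2 : Cnn.S_Pc) : S_P3 := by
  intro A _ _ g hγ
  have hg : g ^ 3 = 1 := by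
    rw [← hγ.orderOf]
    exact pow_orderOf_eq_one g
  have hcont : Continuous (HH h1 g hg : I × WX A → WX A) := by
    refine Continuous.subtype_mk ?_ _
    rw [Conf.continuous_iff]
    intro f
    simp only [ev_cj]
    have hU : Continuous fun p : I × WX A => Ut g (p.1 : ℝ) :=
      (Ut_cont h1 g).comp (continuous_subtype_val.comp continuous_fst)
    exact (hU.matrix_mul (Conf.continuous_iff.1 (push_cont h1 h2 g hg) f)).matrix_mul
      hU.matrix_conjTranspose
  refine ⟨⟨HH h1 g hg, hcont⟩, ?_, ?_, ?_⟩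
  · intro c
    apply Subtype.ext
    refine Conf.ext ?_
    funext y
    show Ut g 0 * (c.1.push fun y => (Gt g 0 y : OnePoint (A → VV))).P y *
      (Ut g 0).conjTranspose = c.1.P y
    have e1 : (fun y : A → VV => (Gt g 0 y : OnePoint (A → VV))) =
        fun y : A → VV => (y : OnePoint (A → VV)) := by
      funext y
      rw [Gt_zero h1]
    have e2 : Ut g 0 = 1 := Ut_zero h1 g
    rw [e1, Conf.push_coe, e2, Matrix.conjTranspose_one, one_mul, mul_one]
  · intro c
    apply Subtype.ext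
    refine Conf.ext ?_
    funext y
    show Ut g 1 * (c.1.push fun y => (Gt g 1 y : OnePoint (A → VV))).P y *
      (Ut g 1).conjTranspose = mre g (c.1.P (y ∘ g))
    have e1 : (c.1.push fun y => (Gt g 1 y : OnePoint (A → VV))).P y = c.1.P (y ∘ g) := by
      have e2 := push_inj (Gt g 1) (Gt_inj h1 g hg 1) c.1 (y ∘ g)
      rw [Gt_one h1] at e2
      exact e2
    have e3 : Ut g 1 = uP g 1 := Ut_one h1 g
    rw [e1, e3]
    ext a b
    rw [mul_uP', uP_mul']
    have h3 : (1 : ZMod 3).val = 1 := rfl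
    rw [h3, pow_one]
    rfl
  · intro t
    apply Subtype.ext
    refine Conf.ext ?_
    funext y
    show Ut g t * ((default : CW A).push fun y => (Gt g t y : OnePoint (A → VV))).P y *
      (Ut g t).conjTranspose = (default : CW A).P y
    have e1 : (default : CW A).push (fun y => (Gt g t y : OnePoint (A → VV))) = default :=
      Conf.push_infty fun y hy => absurd (Conf.default_P y) hy
    rw [e1, Conf.default_P, mul_zero, zero_mul]

end Pool.Agent.Tate.Wi
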