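import Pool.Agent.Lib.Tate.W.Spec

/-!
# C42 (MP_071d69_gt), W/Se: even permutations act homotopically trivially (helper25, task 12202)
-/

set_option autoImplicit false
set_option linter.unusedSectionVars false

open Topology unitInterval Filter Set
open scoped Topology.Homotopy ZeroAtInfty OnePoint

noncomputable section

namespace Pool.Agent.Tate.Wi

namespace SeAux

variable {A : Type} [Fintype A] [DecidableEq A]

theorem wext {c d : WX A} (h : ∀ y, c.1.P y = d.1.P y) : c = d :=
  Subtype.ext (Conf.ext (funext h))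

/-- the action of a permutation, as a continuous map -/
def wc (h : S_Re) (γ : Equiv.Perm A) : C(WX A, WX A) where
  toFun := Wmap γ
  continuous_toFun := ((h A A γ).comp continuous_subtype_val).subtype_mk _

theorem wc_one (h : S_Re) : wc h (1 : Equiv.Perm A) = ContinuousMap.id _ :=
  ContinuousMap.ext fun _ => wext fun _ => rfl

theorem wc_mul (h : S_Re) (γ δ : Equiv.Perm A) : wc h (γ * δ) = (wc h γ).comp (wc h δ) :=
  ContinuousMap.ext fun _ => wext fun _ => rfl

theorem wc_pt (h : S_Re) (γ : Equiv.Perm A) : wc h γ (Wpt A) = Wpt A := wext fun _ => rfl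

end SeAux

open SeAux in
theorem pSe (h3 : S_P3) (hR : S_Re) : S_Se := by
  intro A _ _ γ hγ
  have key : ∀ δ ∈ Subgroup.closure {g : Equiv.Perm A | g.IsThreeCycle},
      (wc hR δ).HomotopicRel (ContinuousMap.id _) {Wpt A} := by
    intro δ hδ
    induction hδ using Subgroup.closure_induction with
    | mem δ h =>
      obtain ⟨H, e0, e1, ep⟩ := h3 A δ h
      refine ContinuousMap.HomotopicRel.symm ⟨⟨⟨H, e0, e1⟩, ?_⟩⟩
      rintro t c rfl
      exact ep t
    | one =>
      rw [wc_one]
      exact ContinuousMap.HomotopicRel.refl _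
    | mul δ₁ δ₂ _ _ h1 h2 =>
      rw [wc_mul]
      exact (h2.comp_continuousMap (wc hR δ₁)).trans h1
    | inv δ _ h1 =>
      have h2 := h1.comp_continuousMap (wc hR δ⁻¹)
      rw [← wc_mul, inv_mul_cancel, wc_one] at h2
      exact h2.symm
  have hmem : γ ∈ Subgroup.closure {g : Equiv.Perm A | g.IsThreeCycle} := by
    rw [Equiv.Perm.closure_three_cycles_eq_alternating]
    exact Equiv.Perm.mem_alternatingGroup.2 hγ
  obtain ⟨F⟩ := key γ hmem
  refine ⟨F.toContinuousMap, F.apply_zero, F.apply_one, fun t => ?_⟩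
  exact (F.eq_snd t rfl)

end Pool.Agent.Tate.Wi
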