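import Pool.Agent.Lib.Tate.W.Spec
import Pool.Agent.Lib.Tate.Conn.Pa

/-!
# C42, W/WP (helper46): the witness is well-pointed
-/

set_option autoImplicit false

open Topology unitInterval Filter Set
open scoped Topology.Homotopy ZeroAtInfty OnePoint

noncomputable section

namespace Pool.Agent.Tate.Wi

namespace WPAux

variable {A : Type} [Fintype A] [DecidableEq A]

theorem chi_ne (a : A → ZMod 4) : chi a ≠ 0 := by
  intro h
  have h1 := norm_chi a
  rw [h, zero_mul] at h1
  exact zero_ne_one h1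

omit [Fintype A] [DecidableEq A] in
theorem rot_surj (y : A → VV) : ∃ y', rot y' = y := by
  refine ⟨fun a => ((y a).1, -Complex.I * (y a).2), ?_⟩
  funext a
  unfold rot
  refine Prod.ext rfl ?_
  show Complex.I * (-Complex.I * (y a).2) = (y a).2
  rw [← mul_assoc, mul_neg, Complex.I_mul_I, neg_neg, one_mul]

theorem P_rot_zero (c : CW A) (hc : c.Inv) (y : A → VV) : c.P (rot y) = 0 ↔ c.P y = 0 := by
  constructor
  · intro h
    ext a b
    have h1 := hc y a b
    rw [h] at h1
    have h2 : chi a * (starRingEnd ℂ) (chi b) ≠ 0 :=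
      mul_ne_zero (chi_ne a) ((map_ne_zero _).2 (chi_ne b))
    have h3 : chi a * (starRingEnd ℂ) (chi b) * c.P y a b = 0 := h1.symm
    exact (mul_eq_zero.1 h3).resolve_left h2
  · intro h
    ext a b
    rw [hc y a b, h]
    exact mul_zero _

/-- `push` preserves the invariant configurations -/
theorem push_inv (c : CW A) (hc : c.Inv) (m : (A → VV) → OnePoint (A → VV))
    (hm : ∀ y y', m (rot y) = ((rot y' : A → VV) : OnePoint (A → VV)) ↔
      m y = (y' : OnePoint (A → VV))) : CW.Inv (c.push m) := by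
  classical
  intro z a b
  rw [Conf.push_P, Conf.push_P, Conf.pushP, Conf.pushP, Matrix.sum_apply, Matrix.sum_apply,
    Finset.mul_sum]
  symm
  refine Finset.sum_bij (fun y _ => rot y) ?_ ?_ ?_ ?_
  · intro y hy
    rw [Finset.mem_filter, Set.Finite.mem_toFinset] at hy ⊢
    exact ⟨fun h => hy.1 ((P_rot_zero c hc y).1 h), (hm y z).2 hy.2⟩
  · intro y _ y' _ h
    exact rot_injective h
  · intro y hy
    rw [Finset.mem_filter, Set.Finite.mem_toFinset] at hy
    obtain ⟨y', rfl⟩ := rot_surj y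
    refine ⟨y', ?_, rfl⟩
    rw [Finset.mem_filter, Set.Finite.mem_toFinset]
    exact ⟨fun h => hy.1 ((P_rot_zero c hc y').2 h), (hm y' z).1 hy.2⟩
  · intro y _
    exact (hc y a b).symm

/-- the weight -/
def wf (A : Type) [Fintype A] : C₀(A → VV, ℝ) where
  toFun y := 1 / (1 + ‖y‖)
  continuous_toFun := continuous_const.div (continuous_const.add continuous_norm)
    fun y => by positivity
  zero_at_infty' := Tendsto.div_atTop tendsto_const_nhds
    (tendsto_atTop_add_const_left _ 1 (tendsto_norm_cocompact_atTop (E := A → VV)))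

theorem wf_apply (y : A → VV) : wf A y = 1 / (1 + ‖y‖) := rfl

theorem wf_pos (y : A → VV) : 0 < wf A y := by
  rw [wf_apply]
  positivity

/-- the norm of the configuration -/
def vf (c : WX A) : ℝ := ∑ a, ∑ b, ‖c.1.ev (wf A) a b‖

theorem vf_nonneg (c : WX A) : 0 ≤ vf c :=
  Finset.sum_nonneg fun _ _ => Finset.sum_nonneg fun _ _ => norm_nonneg _

theorem vf_cont : Continuous (vf : WX A → ℝ) := by
  have h1 : Continuous fun c : WX A => c.1.ev (wf A) :=
    Conf.continuous_iff.1 (continuous_subtype_val : Continuous fun c : WX A => (c.1 : CW A)) (wf A)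
  unfold vf
  refine continuous_finsetSum _ fun a _ => continuous_finsetSum _ fun b _ => ?_
  exact continuous_norm.comp ((continuous_apply b).comp ((continuous_apply a).comp h1))

theorem wf_le (h1 : Cnn.S_N2) (c : WX A) (y : A → VV) (hy : c.1.P y ≠ 0) : wf A y ≤ vf c := by
  have h2 := h1 (A → VV) (A → ZMod 4) c.1 (wf A) y hy
  exact (le_abs_self _).trans h2

/-- the time -/
def sf (p : I × WX A) : ℝ := (p.1 : ℝ) * max 0 (min 1 (2 - 8 * vf p.2))

theorem sf_cont : Continuous (sf : I × WX A → ℝ) := by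
  unfold sf
  exact (continuous_subtype_val.comp continuous_fst).mul (continuous_const.max
    (continuous_const.min (continuous_const.sub (continuous_const.mul
      (vf_cont.comp continuous_snd)))))

theorem sf_mem (p : I × WX A) : sf p ∈ Icc (0 : ℝ) 1 := by
  unfold sf
  have h1 := p.1.2.1
  have h2 := p.1.2.2
  have h3 : 0 ≤ max 0 (min 1 (2 - 8 * vf p.2)) := le_max_left _ _
  have h4 : max 0 (min 1 (2 - 8 * vf p.2)) ≤ 1 := max_le zero_le_one (min_le_left _ _)
  exact ⟨mul_nonneg h1 h3, mul_le_one₀ h2 h3 h4⟩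

omit [Fintype A] [DecidableEq A] in
theorem smul_rot (r : ℝ) (y : A → VV) : r • rot y = rot (r • y) := by
  funext a
  unfold rot
  refine Prod.ext rfl ?_
  show r • (Complex.I * (y a).2) = Complex.I * (r • (y a).2)
  rw [mul_smul_comm]

theorem po_rot (τ : ℝ) (y y' : A → VV) :
    Cnn.po (0 : A → VV) τ (rot y) = ((rot y' : A → VV) : OnePoint (A → VV)) ↔
      Cnn.po (0 : A → VV) τ y = (y' : OnePoint (A → VV)) := by
  unfold Cnn.po
  split_ifs with h
  · constructor
    · intro h1
      exact absurd h1 (OnePoint.infty_ne_coe _)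
    · intro h1
      exact absurd h1 (OnePoint.infty_ne_coe _)
  · rw [OnePoint.coe_eq_coe, OnePoint.coe_eq_coe, zero_add, zero_add, sub_zero, sub_zero, smul_rot]
    exact ⟨fun h1 => rot_injective h1, fun h1 => by rw [h1]⟩

/-- the value of the homotopy -/
def hf (p : I × WX A) : WX A :=
  ⟨p.2.1.push (Cnn.po 0 (sf p)), push_inv p.2.1 p.2.2 _ (po_rot (sf p))⟩

/-- time smaller than one -/
theorem po_lt (τ₀ : ℝ) (hτ : τ₀ < 1) (y₀ : A → VV) :
    Tendsto (fun q : ℝ × (A → VV) => Cnn.po (0 : A → VV) q.1 q.2) (𝓝[Icc (0 : ℝ) 1] τ₀ ×ˢ 𝓝 y₀)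
      (𝓝 (Cnn.po 0 τ₀ y₀)) := by
  have h1 : Cnn.po (0 : A → VV) τ₀ y₀ = ((0 + (1 - τ₀)⁻¹ • (y₀ - 0) : A → VV) :
      OnePoint (A → VV)) := by
    unfold Cnn.po
    rw [if_neg (not_le.2 hτ)]
  rw [h1]
  have hle : 𝓝[Icc (0 : ℝ) 1] τ₀ ×ˢ 𝓝 y₀ ≤ 𝓝 (τ₀, y₀) := by
    rw [nhds_prod_eq]
    exact Filter.prod_mono nhdsWithin_le_nhds le_rfl
  have h2 : Tendsto (fun q : ℝ × (A → VV) => (0 + (1 - q.1)⁻¹ • (q.2 - 0) : A → VV))
      (𝓝 (τ₀, y₀)) (𝓝 (0 + (1 - τ₀)⁻¹ • (y₀ - 0))) := by
    have h3 : Tendsto (fun q : ℝ × (A → VV) => (1 - q.1)⁻¹) (𝓝 (τ₀, y₀)) (𝓝 (1 - τ₀)⁻¹) := by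
      refine Tendsto.inv₀ ?_ (by linarith)
      exact (continuous_const.sub continuous_fst).tendsto (τ₀, y₀)
    have h4 : Tendsto (fun q : ℝ × (A → VV) => q.2 - 0) (𝓝 (τ₀, y₀)) (𝓝 (y₀ - 0)) :=
      (continuous_snd.sub continuous_const).tendsto (τ₀, y₀)
    exact tendsto_const_nhds.add (h3.smul h4)
  have h5 := ((OnePoint.continuous_coe.tendsto _).comp h2).mono_left hle
  refine h5.congr' ?_
  have h6 : ∀ᶠ τ in 𝓝[Icc (0 : ℝ) 1] τ₀, τ < 1 := nhdsWithin_le_nhds (gt_mem_nhds hτ)
  filter_upwards [tendsto_fst.eventually h6] with q hq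
  show ((0 + (1 - q.1)⁻¹ • (q.2 - 0) : A → VV) : OnePoint (A → VV)) = Cnn.po 0 q.1 q.2
  unfold Cnn.po
  rw [if_neg (not_le.2 hq)]

end WPAux

open WPAux

/-- **WP.** -/
theorem pWP (h1 : Cnn.S_N2) (h2 : Cnn.S_Pc) : S_WP := by
  classical
  intro A _ _
  have hvf : ∀ c : WX A, vf c = 0 ↔ c = Wpt A := by
    intro c
    constructor
    · intro hc
      apply Subtype.ext
      apply Conf.eq_default
      intro y
      by_contra hy
      have h3 := wf_le h1 c y hy
      have h4 := wf_pos y
      linarith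
    · intro hc
      rw [hc]
      unfold vf
      refine Finset.sum_eq_zero fun a _ => Finset.sum_eq_zero fun b _ => ?_
      rw [norm_eq_zero]
      show (default : CW A).ev (wf A) a b = 0
      rw [Conf.ev_apply]
      exact Finset.sum_eq_zero fun y _ => by rw [Conf.default_P]; exact mul_zero _
  have hcont : Continuous (hf : I × WX A → WX A) := by
    refine Continuous.subtype_mk ?_ _
    rw [continuous_iff_continuousAt]
    intro x₀
    rw [← continuousWithinAt_univ]
    have hst : Tendsto (sf : I × WX A → ℝ) (𝓝[univ] x₀) (𝓝[Icc (0 : ℝ) 1] (sf x₀)) := by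
      rw [nhdsWithin_univ, tendsto_nhdsWithin_iff]
      exact ⟨sf_cont.tendsto x₀, Eventually.of_forall fun p => sf_mem p⟩
    have hPa := Cnn.pPa (A → VV) 0 (sf x₀) (sf_mem x₀)
    refine h2 (I × WX A) (A → VV) (A → VV) (A → ZMod 4) univ x₀ (fun p => p.2.1)
      (fun p => Cnn.po 0 (sf p)) ?_ ?_ ?_
    · exact ((continuous_subtype_val : Continuous fun c : WX A => (c.1 : CW A)).comp
        continuous_snd).continuousWithinAt
    · intro y hy
      have h3 : Tendsto (fun q : ℝ × (A → VV) => Cnn.po (0 : A → VV) q.1 q.2)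
          (𝓝[Icc (0 : ℝ) 1] (sf x₀) ×ˢ 𝓝 y) (𝓝 (Cnn.po 0 (sf x₀) y)) := by
        by_cases hs : sf x₀ < 1
        · exact po_lt (sf x₀) hs y
        · refine hPa.1 y ?_
          intro hy0
          apply hs
          have h4 := wf_le h1 x₀.2 y hy
          rw [hy0, wf_apply, norm_zero, add_zero, div_one] at h4
          have h5 : max 0 (min 1 (2 - 8 * vf x₀.2)) = 0 := by
            apply max_eq_left
            exact (min_le_right _ _).trans (by linarith)
          unfold sf
          rw [h5, mul_zero]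
          exact zero_lt_one
      exact h3.comp (hst.prodMap tendsto_id)
    · exact hPa.2.comp (hst.prodMap tendsto_id)
  refine ⟨⟨fun c => ⟨min 1 (8 * vf c), le_min zero_le_one (by linarith [vf_nonneg c]),
    min_le_left _ _⟩, ?_⟩, ⟨hf, hcont⟩, ?_, ?_, ?_, ?_⟩
  · exact Continuous.subtype_mk (continuous_const.min (continuous_const.mul vf_cont)) _
  · intro c
    rw [← hvf c]
    constructor
    · intro h3
      have h4 : min 1 (8 * vf c) = 0 := congrArg Subtype.val h3
      rcases min_choice 1 (8 * vf c) with h5 | h5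
      · rw [h5] at h4
        exact absurd h4 one_ne_zero
      · rw [h5] at h4
        linarith
    · intro h3
      apply Subtype.ext
      show min 1 (8 * vf c) = 0
      rw [h3, mul_zero]
      exact min_eq_right zero_le_one
  · intro c
    apply Subtype.ext
    show c.1.push (Cnn.po 0 (sf (0, c))) = c.1
    have h3 : sf ((0 : I), c) = 0 := by
      unfold sf
      show (0 : ℝ) * _ = 0
      rw [zero_mul]
    rw [h3]
    have h4 : Cnn.po (0 : A → VV) 0 = fun y : A → VV => (y : OnePoint (A → VV)) := by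
      funext y
      unfold Cnn.po
      rw [if_neg (by norm_num)]
      simp
    rw [h4]
    exact Conf.push_coe c.1
  · intro t
    apply Subtype.ext
    show (default : CW A).push (Cnn.po 0 (sf (t, Wpt A))) = default
    exact Conf.push_infty fun y hy => absurd (Conf.default_P y) hy
  · intro c hc
    have h3 : min 1 (8 * vf c) < 1 := hc
    have h4 : 8 * vf c < 1 := by
      rcases min_lt_iff.1 h3 with h5 | h5
      · exact absurd h5 (lt_irrefl _)
      · exact h5
    have h6 : sf ((1 : I), c) = 1 := by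
      unfold sf
      show (1 : ℝ) * max 0 (min 1 (2 - 8 * vf c)) = 1
      rw [one_mul, min_eq_left (by linarith), max_eq_right zero_le_one]
    apply Subtype.ext
    show c.1.push (Cnn.po 0 (sf (1, c))) = default
    rw [h6]
    refine Conf.push_infty fun y _ => ?_
    unfold Cnn.po
    rw [if_pos le_rfl]

end Pool.Agent.Tate.Wi
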