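import Pool.Agent.Lib.Tate.W.Spec

/-!
# C42, block W: the homeomorphism `rho`
-/

open Topology unitInterval Filter Set
open scoped Topology.Homotopy ZeroAtInfty OnePoint

noncomputable section

namespace Pool.Agent.Tate.Wi

namespace Rh

theorem bound {x M : ℝ} (h0 : 0 < x) (h4 : x ≤ 1 / 4) (hM : x * (2 * (|M| + 1)) ≤ 1) :
    M ≤ |(2 * x - 1) / (x * (1 - x))| := by
  have h1 : 0 < x * (1 - x) := mul_pos h0 (by linarith)
  have hM0 : 0 ≤ |M| := abs_nonneg M
  rw [abs_div, abs_of_pos h1, le_div_iff₀ h1]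
  have h2 : (1 : ℝ) / 2 ≤ |2 * x - 1| := by
    rw [abs_of_neg (by linarith)]
    linarith
  have h3 : M * (x * (1 - x)) ≤ |M| * x := by
    have h5 : M * (x * (1 - x)) ≤ |M| * (x * (1 - x)) :=
      mul_le_mul_of_nonneg_right (le_abs_self M) h1.le
    have h6 : |M| * (x * (1 - x)) ≤ |M| * x := by
      refine mul_le_mul_of_nonneg_left ?_ hM0
      nlinarith
    exact h5.trans h6
  nlinarith

end Rh

theorem pRh : S_Rh := by
  constructor
  · have h1 : Continuous fun t : I => (2 * (t : ℝ) - 1) := by fun_prop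
    have h2 : Continuous fun t : I => ((t : ℝ) * (1 - t)) := by fun_prop
    refine h1.continuousOn.div h2.continuousOn ?_
    rintro t ⟨ht0, ht1⟩
    have h3 : (t : ℝ) ≠ 0 := fun h => ht0 (Subtype.ext h)
    have h4 : (1 - (t : ℝ)) ≠ 0 := fun h => ht1 (Subtype.ext (by
      show (t : ℝ) = 1
      linarith))
    exact mul_ne_zero h3 h4
  · intro t ht M
    have hM : 0 < 2 * (|M| + 1) := by positivity
    set δ : ℝ := min (1 / 4) (1 / (2 * (|M| + 1))) with hδ
    have hδ0 : 0 < δ := lt_min (by norm_num) (by positivity)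
    have hδM : ∀ x : ℝ, x < δ → x ≤ 1 / 4 ∧ x * (2 * (|M| + 1)) ≤ 1 := by
      intro x hx
      refine ⟨hx.le.trans (min_le_left _ _), ?_⟩
      have := hx.le.trans (min_le_right (1 / 4) (1 / (2 * (|M| + 1))))
      rwa [le_div_iff₀ hM] at this
    rcases ht with rfl | rfl
    · have hev : ∀ᶠ t' : I in 𝓝 0, (t' : ℝ) < δ := by
        have hc : Continuous fun t : I => (t : ℝ) := continuous_subtype_val
        exact hc.continuousAt.eventually_lt continuousAt_const (by simpa using hδ0)
      filter_upwards [hev] with t' h1 h2 h3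
      have h0 : 0 < (t' : ℝ) := lt_of_le_of_ne t'.2.1 fun h => h2 (Subtype.ext h.symm)
      exact Rh.bound h0 (hδM _ h1).1 (hδM _ h1).2
    · have hev : ∀ᶠ t' : I in 𝓝 1, 1 - (t' : ℝ) < δ := by
        have hc : Continuous fun t : I => 1 - (t : ℝ) := by fun_prop
        exact hc.continuousAt.eventually_lt continuousAt_const (by simpa using hδ0)
      filter_upwards [hev] with t' h1 h2 h3
      have h0 : 0 < 1 - (t' : ℝ) := by
        have h4 : (t' : ℝ) < 1 := lt_of_le_of_ne t'.2.2 fun h => h3 (Subtype.ext h)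
        linarith
      have h5 := Rh.bound h0 (hδM _ h1).1 (hδM _ h1).2
      have h6 : (2 * (1 - (t' : ℝ)) - 1) / ((1 - (t' : ℝ)) * (1 - (1 - (t' : ℝ)))) = -rho t' := by
        unfold rho
        rw [← neg_div]
        congr 1 <;> ring
      rwa [h6, abs_neg] at h5

end Pool.Agent.Tate.Wi
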