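import Pool.Agent.Lib.Tate.W.Spec

/-!
# C42, W/Den (helper46): sums of products are dense
-/

set_option autoImplicit false

open Topology unitInterval Filter Set
open scoped Topology.Homotopy ZeroAtInfty OnePoint

noncomputable section

namespace Pool.Agent.Tate.Wi

namespace DenAux

variable {Y Z : Type} [TopologicalSpace Y] [TopologicalSpace Z]

theorem tail (f : C₀(Y, ℝ)) {ε : ℝ} (hε : 0 < ε) :
    ∃ K : Set Y, IsCompact K ∧ ∀ y, y ∉ K → |f y| ≤ ε := by
  have h1 := (zero_at_infty f).eventually (Metric.closedBall_mem_nhds (0 : ℝ) hε)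
  obtain ⟨K, hK, hKs⟩ := mem_cocompact.1 h1
  refine ⟨K, hK, fun y hy => ?_⟩
  have h2 : f y ∈ Metric.closedBall (0 : ℝ) ε := hKs hy
  rw [mem_closedBall_zero_iff, Real.norm_eq_abs] at h2
  exact h2

/-- the partial function -/
def sec (f : C₀(Y × Z, ℝ)) (y : Y) : C₀(Z, ℝ) where
  toFun z := f (y, z)
  continuous_toFun := f.continuous.comp (Continuous.prodMk_right y)
  zero_at_infty' := by
    rw [Metric.tendsto_nhds]
    intro ε hε
    obtain ⟨K, hK, hKf⟩ := tail f (half_pos hε)
    have h1 : (Prod.snd '' K)ᶜ ∈ cocompact Z := (hK.image continuous_snd).compl_mem_cocompact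
    filter_upwards [h1] with z hz
    rw [dist_zero_right, Real.norm_eq_abs]
    have h2 : (y, z) ∉ K := fun h => hz ⟨(y, z), h, rfl⟩
    have h3 := hKf _ h2
    linarith

theorem sec_apply (f : C₀(Y × Z, ℝ)) (y : Y) (z : Z) : sec f y z = f (y, z) := rfl

/-- the neighbourhoods -/
theorem nbh (f : C₀(Y × Z, ℝ)) {δ : ℝ} (hδ : 0 < δ) {K : Set (Y × Z)} (hK : IsCompact K)
    (hKf : ∀ p, p ∉ K → |f p| ≤ δ) (y : Y) :
    {y' | ∀ z, |f (y', z) - f (y, z)| ≤ 3 * δ} ∈ 𝓝 y := by
  have hn : IsOpen {p : Y × Z | |f (p.1, p.2) - f (y, p.2)| < δ} := by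
    refine isOpen_lt ?_ continuous_const
    refine Continuous.abs (Continuous.sub ?_ ?_)
    · exact f.continuous.comp (continuous_fst.prodMk continuous_snd)
    · exact f.continuous.comp (continuous_const.prodMk continuous_snd)
  have hp : ({y} : Set Y) ×ˢ (Prod.snd '' K) ⊆
      {p : Y × Z | |f (p.1, p.2) - f (y, p.2)| < δ} := by
    rintro ⟨y', z⟩ ⟨h1, _⟩
    have h2 : y' = y := h1
    show |f (y', z) - f (y, z)| < δ
    rw [h2, sub_self, abs_zero]
    exact hδ
  obtain ⟨u, v, hu, _, hyu, hKv, huv⟩ := generalized_tube_lemma isCompact_singleton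
    (hK.image continuous_snd) hn hp
  refine mem_of_superset (hu.mem_nhds (hyu rfl)) ?_
  intro y' hy' z
  by_cases hz : z ∈ Prod.snd '' K
  · have h3 : |f (y', z) - f (y, z)| < δ := huv (Set.mk_mem_prod hy' (hKv hz))
    linarith
  · have h4 : |f (y', z)| ≤ δ := hKf _ fun h => hz ⟨_, h, rfl⟩
    have h5 : |f (y, z)| ≤ δ := hKf _ fun h => hz ⟨_, h, rfl⟩
    have h6 := abs_sub (f (y', z)) (f (y, z))
    linarith

end DenAux

open DenAux

/-- **Den.** -/
theorem pDen : S_Den := by
  classical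
  intro Y Z _ _ _ _ _ _ f ε hε
  obtain ⟨δ, hδ, hδε⟩ : ∃ δ : ℝ, 0 < δ ∧ 4 * δ = ε := ⟨ε / 4, by positivity, by ring⟩
  obtain ⟨K, hK, hKf⟩ := tail f hδ
  obtain ⟨t, _, ht⟩ := (hK.image continuous_fst).elim_nhds_subcover
    (fun y => interior {y' | ∀ z, |f (y', z) - f (y, z)| ≤ 3 * δ})
    (fun y _ => interior_mem_nhds.2 (nbh f hδ hK hKf y))
  obtain ⟨yy, hyy⟩ : ∃ yy : Fin t.card → Y, yy = fun i => (t.equivFin.symm i : Y) := ⟨_, rfl⟩
  have hcov : Prod.fst '' K ⊆
      ⋃ i, interior {y' | ∀ z, |f (y', z) - f (yy i, z)| ≤ 3 * δ} := by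
    intro y hy
    have h1 := ht hy
    rw [mem_iUnion₂] at h1
    obtain ⟨y₀, h2, h3⟩ := h1
    rw [mem_iUnion]
    refine ⟨t.equivFin ⟨y₀, h2⟩, ?_⟩
    rw [hyy]
    simpa using h3
  obtain ⟨p, hp1, hp2, hp3, hp4⟩ := exists_continuous_sum_one_of_isOpen_isCompact
    (fun i => isOpen_interior) (hK.image continuous_fst) hcov
  obtain ⟨Dn, hDn⟩ : ∃ Dn : Y → ℝ, Dn = fun y => max 1 (∑ i, p i y) := ⟨_, rfl⟩
  have hDc : Continuous Dn := by
    rw [hDn]
    exact continuous_const.max (continuous_finsetSum _ fun i _ => (p i).continuous)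
  have hD1 : ∀ y, 1 ≤ Dn y := fun y => by
    rw [hDn]
    exact le_max_left _ _
  have hDp : ∀ y, 0 < Dn y := fun y => lt_of_lt_of_le zero_lt_one (hD1 y)
  have hPD : ∀ y, ∑ i, p i y ≤ Dn y := fun y => by
    rw [hDn]
    exact le_max_right _ _
  let q : Fin t.card → C₀(Y, ℝ) := fun i =>
    { toFun := fun y => p i y / Dn y
      continuous_toFun := (p i).continuous.div hDc fun y => (hDp y).ne'
      zero_at_infty' := by
        have h1 : HasCompactSupport (fun y => p i y / Dn y) := by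
          refine (hp4 i).mono' ?_
          intro y hy
          apply subset_tsupport
          intro h2
          exact hy (by
            show p i y / Dn y = 0
            rw [h2, zero_div])
        exact h1.is_zero_at_infty }
  have hq : ∀ i y, q i y = p i y / Dn y := fun i y => rfl
  refine ⟨t.card, q, fun i => sec f (yy i), ?_⟩
  intro y z
  have hq0 : ∀ i, 0 ≤ q i y := fun i => by
    rw [hq]
    exact div_nonneg (hp3 i y).1 (hDp y).le
  have hqs : ∑ i, q i y ≤ 1 := by
    simp only [hq]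
    rw [← Finset.sum_div, div_le_one (hDp y)]
    exact hPD y
  have hterm : ∀ i, |q i y * (f (y, z) - f (yy i, z))| ≤ q i y * (3 * δ) := by
    intro i
    rw [abs_mul, abs_of_nonneg (hq0 i)]
    by_cases h1 : q i y = 0
    · rw [h1, zero_mul, zero_mul]
    · refine mul_le_mul_of_nonneg_left ?_ (hq0 i)
      have h2 : y ∈ tsupport (p i) := by
        apply subset_tsupport
        intro h3
        exact h1 (by rw [hq, h3, zero_div])
      exact (interior_subset (hp1 i h2)) z
  have e1 : f (y, z) - ∑ i, q i y * sec f (yy i) z =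
      (1 - ∑ i, q i y) * f (y, z) + ∑ i, q i y * (f (y, z) - f (yy i, z)) := by
    simp only [mul_sub, Finset.sum_sub_distrib, sec_apply]
    rw [← Finset.sum_mul]
    ring
  rw [e1]
  have e2 : |∑ i, q i y * (f (y, z) - f (yy i, z))| ≤ 3 * δ := by
    refine (Finset.abs_sum_le_sum_abs _ _).trans ?_
    refine (Finset.sum_le_sum fun i _ => hterm i).trans ?_
    rw [← Finset.sum_mul]
    nlinarith
  have e3 : |(1 - ∑ i, q i y) * f (y, z)| ≤ δ := by
    by_cases hy : y ∈ Prod.fst '' K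
    · have h1 : ∑ i, p i y = 1 := by
        have h2 := hp2 hy
        simpa using h2
      have h3 : Dn y = 1 := by
        rw [hDn]
        show max 1 (∑ i, p i y) = 1
        rw [h1, max_self]
      have h4 : ∑ i, q i y = 1 := by
        simp only [hq]
        rw [← Finset.sum_div, h1, h3, div_one]
      rw [h4, sub_self, zero_mul, abs_zero]
      exact hδ.le
    · have h1 : |f (y, z)| ≤ δ := hKf _ fun h => hy ⟨_, h, rfl⟩
      have h2 : 0 ≤ ∑ i, q i y := Finset.sum_nonneg fun i _ => hq0 i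
      rw [abs_mul, abs_of_nonneg (by linarith)]
      nlinarith [abs_nonneg (f (y, z))]
  have e4 := abs_add_le ((1 - ∑ i, q i y) * f (y, z)) (∑ i, q i y * (f (y, z) - f (yy i, z)))
  linarith

end Pool.Agent.Tate.Wi
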