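import Pool.Agent.Lib.Tate.W.Spec

set_option linter.unusedSectionVars false
set_option autoImplicit false

open Topology unitInterval Filter Set
open scoped Topology.Homotopy ZeroAtInfty OnePoint

noncomputable section

namespace Pool.Agent.Tate.Wi

variable {A B : Type} [Fintype A] [DecidableEq A] [Fintype B] [DecidableEq B]

private theorem mu_prod (c : CW A) (d : CW B) (g : (A → VV) → ℝ) (h : (B → VV) → ℝ)
    (a b : A ⊕ B → ZMod 4) :
    (c.mul d).ev (fun x => g (x ∘ Sum.inl) * h (x ∘ Sum.inr)) a b =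
      c.ev g (a ∘ Sum.inl) (b ∘ Sum.inl) * d.ev h (a ∘ Sum.inr) (b ∘ Sum.inr) := by
  classical
  rw [Conf.ev_apply, Conf.ev_apply, Conf.ev_apply]
  let E := (Equiv.sumArrowEquivProdArrow A B VV).symm
  have hsub : (c.mul d).fin.toFinset ⊆
      (c.fin.toFinset ×ˢ d.fin.toFinset).map E.toEmbedding := by
    intro z hz
    rw [Finite.mem_toFinset] at hz
    rw [Finset.mem_map]
    refine ⟨(z ∘ Sum.inl, z ∘ Sum.inr), ?_, E.symm.injective (by simp [E]; rfl)⟩
    rw [Finset.mem_product, Finite.mem_toFinset, Finite.mem_toFinset]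
    constructor
    · intro h0
      apply hz
      show mpr (c.P (z ∘ Sum.inl)) (d.P (z ∘ Sum.inr)) = 0
      have h0' : c.P (z ∘ Sum.inl) = 0 := h0
      rw [h0', zero_mpr]
    · intro h0
      apply hz
      show mpr (c.P (z ∘ Sum.inl)) (d.P (z ∘ Sum.inr)) = 0
      have h0' : d.P (z ∘ Sum.inr) = 0 := h0
      rw [h0', mpr_zero]
  rw [Finset.sum_subset hsub (fun z _ hz => ?_), Finset.sum_map, Finset.sum_product,
    Finset.sum_mul_sum]
  · refine Finset.sum_congr rfl (fun y _ => Finset.sum_congr rfl (fun z _ => ?_))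
    show ((g y * h z : ℝ) : ℂ) * (c.P y (a ∘ Sum.inl) (b ∘ Sum.inl) *
      d.P z (a ∘ Sum.inr) (b ∘ Sum.inr)) = _
    push_cast
    ring
  · have h0 : (c.mul d).P z = 0 := by
      by_contra hne
      exact hz ((Finite.mem_toFinset _).2 hne)
    rw [h0, Matrix.zero_apply, mul_zero]

private theorem ev_sum {Y J : Type} [Fintype J] (c : Conf Y J) {n : ℕ} (F : Fin n → Y → ℝ)
    (a b : J) : c.ev (fun y => ∑ i, F i y) a b = ∑ i, c.ev (F i) a b := by
  simp only [Conf.ev_apply]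
  rw [Finset.sum_comm]
  refine Finset.sum_congr rfl (fun y _ => ?_)
  push_cast
  rw [Finset.sum_mul]

private theorem ev_sub {Y J : Type} [Fintype J] (c : Conf Y J) (F F' : Y → ℝ)
    (a b : J) : c.ev F a b - c.ev F' a b = c.ev (fun y => F y - F' y) a b := by
  simp only [Conf.ev_apply]
  rw [← Finset.sum_sub_distrib]
  refine Finset.sum_congr rfl (fun y _ => ?_)
  push_cast
  ring

private theorem cont_ev {Y J : Type} [TopologicalSpace Y] [Fintype J] (f : C₀(Y, ℝ)) (a b : J) :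
    Continuous fun c : Conf Y J => c.ev f a b :=
  ((Conf.continuous_iff (g := fun c : Conf Y J => c)).1 continuous_id f).matrix_elem a b

theorem pMu (hD : S_Den) (hN : Cnn.S_N1) : S_Mu := by
  intro A B _ _ _ _
  rw [Conf.continuous_iff]
  intro f
  refine continuous_matrix (fun a b => ?_)
  let e : (A → VV) × (B → VV) ≃ₜ (A ⊕ B → VV) :=
    (Homeomorph.sumArrowHomeomorphProdArrow (X := VV) (ι := A) (ι' := B)).symm
  let f' : C₀((A → VV) × (B → VV), ℝ) := f.comp e.toCocompactMap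
  have hf' : ∀ x : A ⊕ B → VV, f' (x ∘ Sum.inl, x ∘ Sum.inr) = f x := by
    intro x
    show f (e (x ∘ Sum.inl, x ∘ Sum.inr)) = f x
    congr 1
    have : (x ∘ Sum.inl, x ∘ Sum.inr) = e.symm x := rfl
    rw [this, e.apply_symm_apply]
  refine continuous_of_uniform_approx_of_continuous (fun u hu => ?_)
  obtain ⟨ε, hε, hu⟩ := Metric.mem_uniformity_dist.1 hu
  obtain ⟨n, g, h, hgh⟩ := hD (A → VV) (B → VV) f' (ε / 2) (half_pos hε)
  refine ⟨fun p => ∑ i, p.1.ev (g i) (a ∘ Sum.inl) (b ∘ Sum.inl) *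
    p.2.ev (h i) (a ∘ Sum.inr) (b ∘ Sum.inr), ?_, fun p => ?_⟩
  · refine continuous_finsetSum _ (fun i _ => ?_)
    exact ((cont_ev (g i) _ _).comp continuous_fst).mul ((cont_ev (h i) _ _).comp continuous_snd)
  · apply hu
    have h1 : ∑ i, p.1.ev (g i) (a ∘ Sum.inl) (b ∘ Sum.inl) *
        p.2.ev (h i) (a ∘ Sum.inr) (b ∘ Sum.inr) =
        (p.1.mul p.2).ev (fun x => ∑ i, g i (x ∘ Sum.inl) * h i (x ∘ Sum.inr)) a b := by
      rw [ev_sum (p.1.mul p.2) (fun i x => g i (x ∘ Sum.inl) * h i (x ∘ Sum.inr)) a b]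
      exact Finset.sum_congr rfl (fun i _ => (mu_prod p.1 p.2 (g i) (h i) a b).symm)
    rw [dist_eq_norm]
    show ‖(p.1.mul p.2).ev f a b - ∑ i, p.1.ev (g i) (a ∘ Sum.inl) (b ∘ Sum.inl) *
        p.2.ev (h i) (a ∘ Sum.inr) (b ∘ Sum.inr)‖ < ε
    rw [h1, ev_sub]
    refine lt_of_le_of_lt (hN _ _ (p.1.mul p.2) _ (ε / 2) (half_pos hε).le (fun y _ => ?_) a b)
      (half_lt_self hε)
    have h2 := hgh (y ∘ Sum.inl) (y ∘ Sum.inr)
    rw [hf'] at h2
    exact h2

end Pool.Agent.Tate.Wi
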