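import Pool.Agent.Lib.Tate.W.Spec

/-!
# C42 (MP_071d69_gt), W/Re: reindexing is continuous (helper25, task 12184)
-/

set_option autoImplicit false
set_option linter.unusedSectionVars false

open Topology unitInterval Filter Set
open scoped Topology.Homotopy ZeroAtInfty OnePoint

noncomputable section

namespace Pool.Agent.Tate.Wi

namespace ReAux

variable {A B : Type} [Fintype A] [DecidableEq A] [Fintype B] [DecidableEq B]

/-- `mre e` as an additive map -/
def mh (e : A ≃ B) : Mt A (ZMod 4) →+ Mt B (ZMod 4) where
  toFun := mre e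
  map_zero' := mre_zero e
  map_add' _ _ := rfl

/-- the homeomorphism `y ↦ y ∘ e.symm` -/
def hm (e : A ≃ B) : (A → VV) ≃ₜ (B → VV) where
  toFun y := y ∘ e.symm
  invFun y := y ∘ e
  left_inv y := by funext a; simp
  right_inv y := by funext a; simp
  continuous_toFun := by
    apply continuous_pi
    intro b
    exact continuous_apply (e.symm b)
  continuous_invFun := by
    apply continuous_pi
    intro b
    exact continuous_apply (e b)

/-- the transported test function -/
def ft (e : A ≃ B) (f : C₀(B → VV, ℝ)) : C₀(A → VV, ℝ) where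
  toFun y := f (hm e y)
  continuous_toFun := f.continuous.comp (hm e).continuous
  zero_at_infty' := f.zero_at_infty'.comp (hm e).isClosedEmbedding.tendsto_cocompact

theorem ev_re (e : A ≃ B) (f : C₀(B → VV, ℝ)) (c : CW A) :
    (c.re e).ev f = mre e (c.ev (ft e f)) := by
  have h1 : mre e (c.ev (ft e f)) = ∑ᶠ y : A → VV, mh e (((ft e f y : ℝ) : ℂ) • c.P y) := by
    change mh e (∑ᶠ y : A → VV, ((ft e f y : ℝ) : ℂ) • c.P y) = _
    apply AddMonoidHom.map_finsum
    refine c.fin.subset ?_
    intro y hy h0
    apply hy
    change ((ft e f y : ℝ) : ℂ) • c.P y = 0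
    rw [show c.P y = 0 from h0, smul_zero]
  rw [h1]
  unfold Conf.ev
  rw [← finsum_comp_equiv (hm e).toEquiv.symm]
  apply finsum_congr
  intro y
  have h2 : ft e f ((hm e).toEquiv.symm y) = f y := by
    change f (hm e ((hm e).symm y)) = f y
    rw [Homeomorph.apply_symm_apply]
  rw [h2]
  rfl

theorem cont_mre (e : A ≃ B) : Continuous (mre e : Mt A (ZMod 4) → Mt B (ZMod 4)) := by
  refine continuous_pi fun a => continuous_pi fun b => ?_
  exact (continuous_apply (b ∘ e)).comp (continuous_apply (a ∘ e))

end ReAux

open ReAux in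
theorem pRe : S_Re := by
  intro A B _ _ _ _ e
  rw [Conf.continuous_iff]
  intro f
  have h : (fun c : CW A => (c.re e).ev f) = fun c : CW A => mre e (c.ev (ft e f)) :=
    funext fun c => ev_re e f c
  rw [h]
  exact (cont_mre e).comp (Conf.continuous_iff.1 continuous_id (ft e f))

end Pool.Agent.Tate.Wi
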