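import Pool.Agent.Lib.Tate.W.Spec

/-!
# C42 (MP_071d69_gt), block W, T2: configuration spaces are Hausdorff
-/

open Topology unitInterval Filter Set
open scoped Topology.Homotopy ZeroAtInfty OnePoint

noncomputable section

namespace Pool.Agent.Tate.Wi

namespace T2M

/-- A test function which is `1` at `y` and `0` at the other points of the configuration. -/
theorem ev_point {Y J : Type} [Fintype J] (c : Conf Y J) (φ : Y → ℝ) (y : Y) (h1 : φ y = 1)
    (h0 : ∀ z, z ≠ y → c.P z ≠ 0 → φ z = 0) : c.ev φ = c.P y := by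
  classical
  unfold Conf.ev
  rw [finsum_eq_single _ y]
  · simp [h1]
  · intro z hz
    by_cases hc : c.P z = 0
    · simp [hc]
    · simp [h0 z hz hc]

end T2M

theorem pT2 (hBu : Cnn.S_Bu) : S_T2 := by
  intro Y J _ _ _ _
  classical
  refine ⟨fun c d hcd => ?_⟩
  obtain ⟨y, hy⟩ : ∃ y, c.P y ≠ d.P y := by
    by_contra hcon
    push Not at hcon
    exact hcd (Conf.ext (funext hcon))
  obtain ⟨φ, -, hφ⟩ := hBu Y ({z | c.P z ≠ 0} ∪ {z | d.P z ≠ 0} ∪ {y})
    (fun z => if z = y then 1 else 0) ((c.fin.union d.fin).union (finite_singleton y))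
  have hval : ∀ z ∈ ({z | c.P z ≠ 0} ∪ {z | d.P z ≠ 0} ∪ {y} : Set Y),
      φ z = if z = y then 1 else 0 := fun z hz => (hφ z hz).self_of_nhds
  have h1 : φ y = 1 := by
    rw [hval y (Or.inr rfl), if_pos rfl]
  have hc : c.ev φ = c.P y := by
    apply T2M.ev_point c φ y h1
    intro z hz hcz
    rw [hval z (Or.inl (Or.inl hcz)), if_neg hz]
  have hd : d.ev φ = d.P y := by
    apply T2M.ev_point d φ y h1
    intro z hz hcz
    rw [hval z (Or.inl (Or.inr hcz)), if_neg hz]
  have hcont : Continuous fun c : Conf Y J => c.ev φ :=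
    Conf.continuous_iff.1 continuous_id φ
  have hne : c.ev φ ≠ d.ev φ := by rw [hc, hd]; exact hy
  exact separated_by_continuous hcont hne

end Pool.Agent.Tate.Wi
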