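import Pool.Agent.Lib.Tate.W.Spec

/-!
# C42, block W: the unit map is continuous
-/

open Topology unitInterval Filter Set
open scoped Topology.Homotopy ZeroAtInfty OnePoint

noncomputable section

namespace Pool.Agent.Tate.Wi

namespace Un

variable {A : Type} [Fintype A] [DecidableEq A]

/-- the point of the configuration -/
def pt (s : A → I) : A → VV := fun a => (rho (s a), 0)

open Classical in
/-- the value of the test function -/
def FF (f : C₀(A → VV, ℝ)) (s : A → I) : ℝ := if s ∈ Cube.boundary A then 0 else f (pt s)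

theorem ev_unit (f : C₀(A → VV, ℝ)) (s : A → I) :
    (Wunit' s).1.ev f = (FF f s : ℂ) • mone A (0 : ZMod 4) := by
  by_cases hs : s ∈ Cube.boundary A
  · have e : Wunit' s = Wpt A := if_pos hs
    have e2 : FF f s = 0 := if_pos hs
    rw [e, e2]
    unfold Conf.ev Wpt
    simp
  · have hH : (mone A (0 : ZMod 4)).IsHermitian := mone_herm 0
    have e : (Wunit' s).1 = Conf.single (pt s) (mone A (0 : ZMod 4)) hH (mone_idem 0) :=
      congrArg Subtype.val (if_neg hs)
    have e2 : FF f s = f (pt s) := if_neg hs
    rw [e, e2]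
    unfold Conf.ev
    rw [finsum_eq_single _ (pt s), Conf.single_self]
    intro y hy
    rw [Conf.single_ne _ _ _ hy, smul_zero]

omit [DecidableEq A] in
theorem isClosed_boundary : IsClosed (Cube.boundary A) := by
  have : Cube.boundary A = ⋃ i : A, ({y : A → I | y i = 0} ∪ {y : A → I | y i = 1}) := by
    ext y
    simp [Cube.boundary]
  rw [this]
  refine isClosed_iUnion_of_finite fun i => ?_
  exact (isClosed_eq (continuous_apply i) continuous_const).union
    (isClosed_eq (continuous_apply i) continuous_const)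

omit [DecidableEq A] in
theorem cont_FF (h : S_Rh) (f : C₀(A → VV, ℝ)) : Continuous (FF f) := by
  classical
  rw [continuous_iff_continuousAt]
  intro s₀
  by_cases hs : s₀ ∈ Cube.boundary A
  · obtain ⟨a, ha⟩ := hs
    have h0 : FF f s₀ = 0 := if_pos ⟨a, ha⟩
    rw [ContinuousAt, h0, Metric.tendsto_nhds]
    intro ε hε
    have hz := f.zero_at_infty'
    rw [← Metric.cobounded_eq_cocompact, Metric.tendsto_nhds] at hz
    obtain ⟨M, -, hM⟩ := Filter.hasBasis_cobounded_norm.eventually_iff.1 (hz ε hε)
    have h1 := h.2 (s₀ a) ha M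
    have h2 := (continuous_apply a).continuousAt.eventually h1
    filter_upwards [h2] with s hs2
    unfold FF
    by_cases hsb : s ∈ Cube.boundary A
    · rw [if_pos hsb, dist_self]
      exact hε
    · rw [if_neg hsb]
      refine hM ?_
      have hne0 : s a ≠ 0 := fun h' => hsb ⟨a, Or.inl h'⟩
      have hne1 : s a ≠ 1 := fun h' => hsb ⟨a, Or.inr h'⟩
      have h3 := hs2 hne0 hne1
      show M ≤ ‖pt s‖
      refine h3.trans ?_
      refine le_trans ?_ (norm_le_pi_norm (pt s) a)
      have h4 : ‖(pt s a).1‖ ≤ ‖pt s a‖ := norm_fst_le _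
      exact h4
  · have hev : ∀ᶠ s in 𝓝 s₀, s ∉ Cube.boundary A := isClosed_boundary.isOpen_compl.mem_nhds hs
    have h1 : FF f =ᶠ[𝓝 s₀] fun s => f (pt s) := by
      filter_upwards [hev] with s hs2
      exact if_neg hs2
    refine ContinuousAt.congr ?_ h1.symm
    have h2 : ContinuousAt (pt : (A → I) → A → VV) s₀ := by
      rw [continuousAt_pi]
      intro a
      refine ContinuousAt.prodMk ?_ continuousAt_const
      have hne0 : s₀ a ≠ 0 := fun h' => hs ⟨a, Or.inl h'⟩
      have hne1 : s₀ a ≠ 1 := fun h' => hs ⟨a, Or.inr h'⟩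
      have ho : IsOpen {t : I | t ≠ 0 ∧ t ≠ 1} := isOpen_ne.inter isOpen_ne
      exact ContinuousAt.comp (f := fun s : A → I => s a) (h.1.continuousAt (ho.mem_nhds ⟨hne0, hne1⟩))
        (continuous_apply a).continuousAt
    exact f.continuous.continuousAt.comp h2

end Un

theorem pUn (h : S_Rh) : S_Un := by
  intro A _ _
  refine continuous_induced_rng.2 ?_
  rw [Conf.continuous_iff]
  intro f
  have h1 : (fun s : A → I => ((Wunit' s).1).ev f)
      = fun s => (Un.FF f s : ℂ) • mone A (0 : ZMod 4) := by
    funext s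
    exact Un.ev_unit f s
  show Continuous (fun s : A → I => ((Wunit' s).1).ev f)
  rw [h1]
  exact (Complex.continuous_ofReal.comp (Un.cont_FF h f)).smul continuous_const

end Pool.Agent.Tate.Wi
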