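import Pool.Agent.Lib.Tate.WitDefs
import Pool.Agent.Lib.Tate.Conn.Spec

/-!
# C42 (MP_071d69_gt), block W (helper66): the witness is a commutative symmetric ring spectrum

Statement `S_X` is proved by `theorem pX : S_X` in `Pool/Agent/Lib/Tate/W/X.lean` (namespace
`Pool.Agent.Tate.Wi`, `import Pool.Agent.Lib.Tate.W.Spec`); statements which are used are
hypotheses of the theorem (also those of `Conn/Spec.lean`, namespace `Pool.Agent.Tate.Cnn`).
Complete proofs in the docstrings.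
-/

set_option linter.unusedSectionVars false

open Topology unitInterval Filter Set
open scoped Topology.Homotopy ZeroAtInfty OnePoint

noncomputable section

namespace Pool.Agent.Tate.Wi

/-! ### Continuity of the operations -/

/-- **Re.** Reindexing is continuous.

Proof. `Conf.continuous_iff`: for `f ∈ C₀(B → VV, ℝ)` the function `f' y = f (y ∘ e.symm)` is in
`C₀(A → VV, ℝ)` (composition with the homeomorphism `y ↦ y ∘ e.symm`), and entrywise
`(c.re e).ev f a b = c.ev f' (a ∘ e) (b ∘ e)` (change of the summation variable `y ↦ y ∘ e` in the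
`finsum`, `finsum_eq_of_bijective` or `Conf.ev_apply`).  The right hand side is continuous in `c`
by `Conf.continuous_iff` applied to the identity. -/
def S_Re : Prop := ∀ (A B : Type) [Fintype A] [DecidableEq A] [Fintype B] [DecidableEq B]
  (e : A ≃ B), Continuous fun c : CW A => c.re e

/-- **Den.** Sums of products are dense in the continuous functions which vanish at infinity on
a product.

Proof. Let `K₁` be the (compact) projection to `Y` of a compact set `K` with `|f| ≤ ε` outside `K`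
(`f.zero_at_infty'`).  For `y ∈ Y` the set `U_y = {y' | ∀ z, |f (y', z) - f (y, z)| < 3 ε}` is a
neighbourhood of `y`: let `K₂` be the projection of `K` to `Z`; for `z ∉ K₂` both values are at most
`ε` in absolute value; for `z ∈ K₂` use the tube lemma (`generalized_tube_lemma` for the open set
`{(y', z) | |f (y', z) - f (y, z)| < ε}` which contains `{y} × K₂`).  Choose finitely many
`y_1, ..., y_n` such that the interiors of the `U_{y_i}` cover `K₁`, and (`
exists_continuous_sum_one_of_isOpen_isCompact`) continuous functions `p_i` with compact support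
inside `interior U_{y_i}`, values in `[0, 1]`, and `∑ p_i = 1` on `K₁`.  Put
`q_i = p_i / max 1 (∑ p_j)`: compact support, `∑ q_i ≤ 1` everywhere, `∑ q_i = 1` on `K₁`.  Take
`g_i = q_i`, `h_i = f (y_i, ·)` (in `C₀(Z, ℝ)`).  For `y ∈ K₁`:
`|f (y, z) - ∑ q_i(y) f (y_i, z)| = |∑ q_i(y) (f (y, z) - f (y_i, z))| ≤ 3 ε`.  For `y ∉ K₁`:
`|f (y, z)| ≤ ε` and `|q_i(y) f (y_i, z)| ≤ q_i(y) (|f (y, z)| + 3 ε) ≤ 4 ε q_i(y)`, in all at most
`5 ε`.  Start with `ε / 5`. -/
def S_Den : Prop := ∀ (Y Z : Type) [TopologicalSpace Y] [T2Space Y] [LocallyCompactSpace Y]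
  [TopologicalSpace Z] [T2Space Z] [LocallyCompactSpace Z] (f : C₀(Y × Z, ℝ)) (ε : ℝ), 0 < ε →
  ∃ (n : ℕ) (g : Fin n → C₀(Y, ℝ)) (h : Fin n → C₀(Z, ℝ)),
    ∀ y z, |f (y, z) - ∑ i, g i y * h i z| ≤ ε

/-- **Mu.** The exterior product is (jointly) continuous.  (Uses `S_Den`, `Cnn.S_N1`.)

Proof. `Conf.continuous_iff`, entry by entry (`continuous_pi`).  Let `f ∈ C₀(A ⊕ B → VV, ℝ)` and
`f'(y, z) = f (Sum.elim y z)` in `C₀((A → VV) × (B → VV), ℝ)` (composition with a homeomorphism).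
For `ε > 0` take `g_i`, `h_i` from `S_Den`.  For `F x = ∑ i, g_i (x ∘ inl) * h_i (x ∘ inr)` one has,
entry by entry, `(c.mul d).ev F a b = ∑ i, c.ev g_i (a ∘ inl) (b ∘ inl) * d.ev h_i (a ∘ inr) (b ∘ inr)`
(the sum over the support of `c.mul d` can be extended to the product of the supports: the bijection
`Equiv.sumArrowEquivProdArrow`), which is continuous in `(c, d)`; and by `Cnn.S_N1` (linearity of
`ev` in `f`) `‖(c.mul d).ev f a b - (c.mul d).ev F a b‖ ≤ ε` for all `(c, d)`.  A uniform limit of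
continuous functions is continuous (`continuous_of_uniform_approx_of_continuous` or directly with
`Metric.continuous_iff`). -/
def S_Mu : Prop := ∀ (A B : Type) [Fintype A] [DecidableEq A] [Fintype B] [DecidableEq B],
  Continuous fun p : CW A × CW B => p.1.mul p.2

/-- **Rh.** `rho` is continuous on the open interval and tends to infinity at the ends.

Proof. `rho t = (2 t - 1) / (t (1 - t))`, the denominator is not zero for `0 < t < 1`.
For the second part: `|rho t| ≥ M` if `t < 1/4` and `1 / (2 t) ≥ M`, since `|2 t - 1| ≥ 1/2` and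
`t (1 - t) ≤ t`; the same for `1 - t`. -/
def S_Rh : Prop := ContinuousOn rho {t | t ≠ 0 ∧ t ≠ 1} ∧
  ∀ t : I, (t = 0 ∨ t = 1) → ∀ M : ℝ, ∀ᶠ t' in 𝓝 t, t' ≠ 0 → t' ≠ 1 → M ≤ |rho t'|

/-- **Un.** The unit map is continuous.  (Uses `S_Rh`.)

Proof. `Topology.IsInducing.subtypeVal`, `Conf.tendsto_iff`: let `f ∈ C₀(A → VV, ℝ)`.
`(Wunit' s).1.ev f = F(s) • mone A 0`, where `F(s) = f (fun a => (rho (s a), 0))` for
`s ∉ Cube.boundary A` and `F(s) = 0` on the boundary (`finsum` with one nonzero term,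
`Conf.single_self`, `Conf.single_ne`).  `F` is continuous: at a point outside the boundary (a closed
set: finite union of closed sets) by `S_Rh`; at a boundary point `s₀` with `s₀ a ∈ {0, 1}`: given
`ε > 0` there is `M` such that `|f y| < ε` for `‖y‖ ≥ M` (`f.zero_at_infty'`, proper space, cocompact =
norm to infinity), and for `s` near `s₀` outside the boundary `‖y‖ ≥ |rho (s a)| ≥ M` for
`y = (rho (s a), 0)_a` (`norm_le_pi_norm`, norm of a pair). -/
def S_Un : Prop := ∀ (A : Type) [Fintype A] [DecidableEq A], Continuous (Wunit' : (A → I) → WX A)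

/-- **T2.** The spaces of configurations are Hausdorff.  (Uses `Cnn.S_Bu`.)

Proof. Let `c ≠ d`, `c.P y ≠ d.P y`.  Let `Z` be the union of the two supports and of `{y}`; by
`Cnn.S_Bu` there is `φ ∈ C₀(Y, ℝ)` with `φ y = 1` and `φ = 0` on the other points of `Z`.  Then
`c.ev φ = c.P y ≠ d.P y = d.ev φ`, and `c ↦ c.ev φ` is continuous into the Hausdorff space of matrices
(`Conf.continuous_iff`): `separated_by_continuous`.  (For `c = d` entrywise use `Conf.ext`.) -/
def S_T2 : Prop := ∀ (Y J : Type) [TopologicalSpace Y] [T2Space Y] [LocallyCompactSpace Y]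
  [Fintype J], T2Space (Conf Y J)

/-- **WP.** The witness is well-pointed.  (Uses `Cnn.S_N2`, `Cnn.S_Pc`.)

Proof. Let `w(y) = 1 / (1 + ‖y‖)`, a function in `C₀(A → VV, ℝ)` (sup norm on `A → ℝ × ℂ`, proper
space), `w (rot y) = w y`.  Put `v(c) = ∑ a, ∑ b, ‖c.ev w a b‖`, continuous, and
`u(c) = min 1 (8 v(c))`.  `u(c) = 0` iff `c` is empty (if `c.P y ≠ 0` then `v(c) ≥ w(y) > 0` by
`Cnn.S_N2`; if all labels vanish then `c = default`, `Conf.eq_default`).
If `8 v(c) ≤ 1` then every point `y` of `c` has `w(y) ≤ 1/8`, so `‖y‖ ≥ 7`.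
Homotopy: `h(t, c) = push (m_s) c` with `s = t * max 0 (min 1 (2 - 8 v(c))) ∈ [0, 1]` and
`m_s(y) = ((1 - s)⁻¹ • y : A → VV)` for `s < 1`, `m_1(y) = ∞` for `y ≠ 0`, `m_1(0) = 0`.
The result is invariant (`m_s` commutes with `rot`, and the labels are not changed:
`Conf.push_P`, `pushP`, reindex the sum by `rot`).
`h(0, c) = c` (`Conf.push_coe`), `h(t, ∅) = ∅`.  If `u(c) < 1` and `t = 1` then `8 v(c) < 1`, `s = 1`,
all points `y` of `c` are `≠ 0`, so `h(1, c) = ∅` (`Conf.push_infty`).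
Continuity at `(t₀, c₀)`: `Cnn.S_Pc` with `X = I × WX A`, `S = univ`, `g (t, c) = c.1`.  Condition (b)
holds because `‖m_s(y)‖ ≥ ‖y‖` for all `s` (and `∞`).  Condition (a): if `s₀ < 1` then
`(s, y) ↦ (1 - s)⁻¹ • y` is continuous near `(s₀, y)`; if `s₀ = 1` then `8 v(c₀) ≤ 1`, all points `y` of
`c₀` have `‖y‖ ≥ 7`, and `‖(1 - s)⁻¹ • y'‖ ≥ 6 (1 - s)⁻¹ → ∞` for `s → 1`, `y' → y`. -/
def S_WP : Prop := ∀ (A : Type) [Fintype A] [DecidableEq A], WellPointed (WX A) (Wpt A)

/-! ### Semistability -/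

/-- The circulant coefficients `c_l(t) = (1 + 2 cos (2 π (t - l) / 3)) / 3`, `l ∈ ℤ/3`. -/
def cc (t : ℝ) (l : ZMod 3) : ℝ := (1 + 2 * Real.cos (2 * Real.pi * (t - l.val) / 3)) / 3

/-- **Cc.** `c(s) * c(t) = c(s + t)` (convolution on `ℤ/3`), `c(0) = δ_0`, `c(1) = δ_1`,
`c_l(-t) = c_{-l}(t)`.

Proof. With `ω = exp(2 π i / 3)`: `3 c_l(t) = ∑_{k ∈ {-1,0,1}} exp(2 π i k (t - l)/3)`, the inverse
Fourier transform of `k ↦ exp(2 π i k t / 3)`.  By hand: expand with
`cos x cos y = (cos (x+y) + cos (x-y))/2`,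
`cos (2π/3) = -1/2`, `sin (2π/3) = √3/2`; for the fixed `k` the sum over `l` has three terms
(`Fin` sums: `l = 0, 1, 2`, `m = k - l`), all arguments are `2π(s - l)/3`, `2π(t - k + l)/3` modulo `2π`.
The sums `∑_l cos (2π(s - l)/3) = 0` and `∑_l cos(2π(s - t + k - 2 l)/3) = 0`. -/
def S_Cc : Prop :=
  (∀ s t : ℝ, ∀ k : ZMod 3, ∑ l : ZMod 3, cc s l * cc t (k - l) = cc (s + t) k) ∧
  (∀ l : ZMod 3, cc 0 l = if l = 0 then 1 else 0) ∧
  (∀ l : ZMod 3, cc 1 l = if l = 1 then 1 else 0) ∧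
  (∀ (t : ℝ) (l : ZMod 3), cc (-t) l = cc t (-l)) ∧
  ∀ l : ZMod 3, Continuous fun t => cc t l

/-- **P3.** A cyclic permutation of order three acts on the spaces of the witness by a map which is
homotopic to the identity.  (Uses `S_Cc`, `Cnn.S_Pc`.)

Proof. `γ^3 = 1`.  For `t ∈ ℝ` let `G_t` be the real linear map of `A → VV`,
`(G_t y)(a) = ∑_{l ∈ ℤ/3} c_l(t) • y (γ^(-l) a)` (exponents `l.val`, `γ⁻¹ ^ l.val`), and `U_t` the
matrix over `A → ZMod 4`, `U_t = ∑_l c_l(t) Π_l`, where `Π_l` is the permutation matrix with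
`(Π_l)(a, b) = 1` iff `b = a ∘ γ^l`.  By `S_Cc`: `G_s G_t = G_{s+t}`, `G_0 = 1`, `(G_1 y) = y ∘ γ⁻¹`,
`U_s U_t = U_{s+t}`, `U_0 = 1`, `U_tᴴ = U_{-t}` (so `U_t` is unitary), `U_1 = Π_1`.  `G_t` commutes
with `rot`, `U_t` commutes with `diag (chi)` because `chi (a ∘ γ^l) = chi a` (`chi_comp`).
`H(t, c)`: the configuration with label `U_t * c.P (G_{-t} y) * U_tᴴ` at `y`; that is
`push (fun y => (G_t y : OnePoint _)) c` with all labels conjugated by `U_t`.  It is invariant,
`H(0, c) = c`, `H(1, c) = Wmap γ c` (label at `y`: `c.P(y ∘ γ)(a ∘ γ, b ∘ γ)`), `H(t, ∅) = ∅`.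
Continuity: the conjugation is continuous (the entries of `ev f` of the result are polynomials in the
entries of `U_t` and of `ev f` of the pushed configuration), and the push is continuous by `Cnn.S_Pc`
(condition (b): `‖y‖ = ‖G_{-t} G_t y‖ ≤ 3 ‖G_t y‖` as `|c_l| ≤ 1`). -/
def S_P3 : Prop := ∀ (A : Type) [Fintype A] [DecidableEq A] (γ : Equiv.Perm A),
  γ.IsThreeCycle → ∃ H : C(I × WX A, WX A), (∀ c, H (0, c) = c) ∧ (∀ c, H (1, c) = Wmap γ c) ∧
    ∀ t, H (t, Wpt A) = Wpt A

/-- **Se.** Every even permutation acts on the spaces of the witness by a map which is homotopic to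
the identity (strong form of semistability).  (Uses `S_P3`.)

Proof. Let `G` be the set of the permutations `γ` with such an `H`.  It contains the three-cycles
(`S_P3`, reverse the time: `(t, c) ↦ H (σ t, c)`).  It is a subgroup: for `γ, δ ∈ G` with homotopies
`H_γ`, `H_δ` concatenate (`ContinuousMap.Homotopy.trans`, or `if t ≤ 1/2`)
`(t, c) ↦ Wmap γ (H_δ (t, c))`, from `Wmap (δ.trans γ) c = Wmap γ (Wmap δ c)` (`Wmap_trans`;
`γ * δ = δ.trans γ`) to `Wmap γ c`, and `H_γ`; for the inverse take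
`(t, c) ↦ Wmap γ.symm (H_γ (σ t, c))`.  All of these keep the base point (`Wmap_pt`).
`Equiv.Perm.closure_three_cycles_eq_alternating`, `Equiv.Perm.mem_alternatingGroup`,
`Subgroup.closure_induction`.  The continuity of `Wmap` is the hypothesis `S_Re`
(`Continuous.subtype_mk`). -/
def S_Se : Prop := ∀ (A : Type) [Fintype A] [DecidableEq A] (γ : Equiv.Perm A),
  Equiv.Perm.sign γ = 1 → ∃ H : C(I × WX A, WX A), (∀ c, H (0, c) = Wmap γ c) ∧
    (∀ c, H (1, c) = c) ∧ ∀ t, H (t, Wpt A) = Wpt A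

end Pool.Agent.Tate.Wi
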